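import Pool.Agent.U34.RPO.Final

/-!
# The existential theory of the recursive path ordering is undecidable for partial precedences

The definitions (ground terms `GT`, the congruence `Eqv`, the recursive path ordering with status
`Rpo`, quantifier-free formulas `QF`, their truth `QF.Sat`, their codes `QF.code`, and `ExTrue`) are
in `Pool.Agent.U34.RPO.Defs`.

The theorem applies for instance to the signature with two unary symbols `f`, `g` and one constant
and the empty precedence; to every signature with at least one constant and at least two symbols of
positive arity with lexicographic status, with the empty precedence; and to every precedence on a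
signature of unary symbols and one constant for which two unary symbols are incomparable.

Proof idea. One may assume that the unary symbols below `f` or `g` are below both. The terms built
with `f(c, ..., c, x)`, `g(c, ..., c, x)`, the unary symbols below `f` and `g`, and `c` are exactly the
terms which do not dominate finitely many forbidden terms, and they are words. Deleting the unary
symbols below `f` and `g` one gets the skeleton of a word. If `x ≥ y` then the skeleton of `y` is a
subword of the skeleton of `x`; if not `x ≥ y` then the skeleton of `y` is not a subword of the
skeleton of `x` without its last letter. Addition and multiplication of exponents are defined with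
this incomplete information (the words `(f^n g)^m` are characterised by `f^n g u = u f^n g`), so that
Diophantine equations can be expressed.
-/

set_option autoImplicit false

namespace Pool.Agent.Results.MP_18cdfa_lc.IncomparableSymbols

open Pool.Agent.U34.RPO

/-- Let `ar` be the arities of a finite signature, `prec` a strict partial order on its symbols and
`mul` the set of the symbols with multiset status. Let `f` and `g` be distinct incomparable symbols
of positive arity, each of them unary or with lexicographic status, and let `c` be a constant such
that no constant is smaller than `c` and every symbol smaller than `f` or `g` is unary or equal to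
`c`. Then the existential theory of the ground terms with the recursive path ordering is undecidable:
no computable function decides, given the code of a quantifier-free formula, whether its existential
closure is true. In fact every recursively enumerable set is many-one reducible to the set of the
true existential sentences. (Formulas are determined by their codes.) -/
theorem result {N : ℕ} (ar : Fin N → ℕ) (prec : Fin N → Fin N → Prop) (mul : Fin N → Prop)
    (hirr : ∀ s, ¬ prec s s) (htr : ∀ s t u, prec s t → prec t u → prec s u) (f g c : Fin N)
    (hne : f ≠ g) (hfg : ¬ prec f g) (hgf : ¬ prec g f)
    (hf : 0 < ar f ∧ (ar f = 1 ∨ ¬ mul f)) (hg : 0 < ar g ∧ (ar g = 1 ∨ ¬ mul g))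
    (hc : ar c = 0) (hmin : ∀ s, ar s = 0 → ¬ prec c s)
    (hlow : ∀ s, prec f s ∨ prec g s → ar s = 1 ∨ s = c) :
    (¬ ∃ D : List ℕ → Bool, Computable D ∧
      ∀ φ : QF ar ℕ, D φ.code = true ↔ ExTrue prec mul φ) ∧
    (∀ W : ℕ → Prop, REPred W → ∃ φ : ℕ → QF ar ℕ, Computable (fun n => (φ n).code) ∧
      ∀ n, W n ↔ ExTrue prec mul (φ n)) ∧
    Function.Injective (QF.code : QF ar ℕ → List ℕ) := by
  have H : Ass0 ar prec mul f g c :=
    ⟨hirr, htr, hne, hfg, hgf, hf.1, hg.1, hf.2, hg.2, hc, hmin, hlow⟩
  refine ⟨?_, fun W hW => reduction0 H hW, QF.code_injective⟩
  rintro ⟨D, hD, h⟩
  have hre : REPred fun n : ℕ =>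
      (Nat.Partrec.Code.eval (Denumerable.ofNat Nat.Partrec.Code n) 0).Dom := by
    have h1 : Partrec fun n : ℕ =>
        Nat.Partrec.Code.eval (Denumerable.ofNat Nat.Partrec.Code n) 0 :=
      Nat.Partrec.Code.eval_part.comp (Computable.ofNat Nat.Partrec.Code) (Computable.const 0)
    exact h1.dom_re
  obtain ⟨φ, hφ, h2⟩ := reduction0 H hre
  have h3 : Computable fun n : ℕ => D (φ n).code := hD.comp hφ
  apply ComputablePred.halting_problem 0
  refine ComputablePred.computable_iff.2 ⟨fun c => D (φ (Encodable.encode c)).code,
    h3.comp Computable.encode, ?_⟩
  funext e
  rw [h (φ (Encodable.encode e)), ← h2, Denumerable.ofNat_encode]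

end Pool.Agent.Results.MP_18cdfa_lc.IncomparableSymbols
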